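import Pool.Agent.Q294.Rotor.Words

/-!
# Recurrent uniform shift models on `d`-ary trees
-/

namespace Pool.Agent.Results.MP_c4c6a0_pr.RecurrentShiftModel

open Q294.Rotor MeasureTheory

/-- For every `d ≥ 3` there is a non-degenerate periodic rotor sequence, in whose period every child
appears exactly once and the parent at most `(d + 2) / 2` times, for which the rotor walk in the
uniform shift model is almost surely recurrent. -/
theorem result (d : ℕ) (hd : 3 ≤ d) : ∃ (L : ℕ) (_ : NeZero L) (a : ℕ → Option (Fin d)),
    NonDegenerate a ∧ (∀ n, a (n + L) = a n) ∧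
    (∀ i : Fin d, ((Finset.range L).filter fun n => a n = some i).card = 1) ∧
    2 * ((Finset.range L).filter fun n => a n = none).card ≤ d + 2 ∧
    ∀ᵐ k ∂(shiftLaw d L), Recurrent (shifted a k) := by
  have hc : ∀ i : Fin d, ((Finset.range (per d)).filter fun n => sq d n = some i).card = 1 := by
    intro i
    rw [Finset.card_eq_one]
    refine ⟨at_ i, ?_⟩
    ext n
    rw [Finset.mem_filter, Finset.mem_range, sq_some, Finset.mem_singleton]
    constructor
    · rintro ⟨h1, h2⟩
      rwa [Nat.mod_eq_of_lt h1] at h2
    · rintro rfl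
      exact ⟨at_lt i.2, Nat.mod_eq_of_lt (at_lt i.2)⟩
  refine ⟨per d, inferInstance, sq d, sq_nonDegenerate d, sq_periodic d, hc, ?_,
    ae_recurrent_sq (by omega)⟩
  have h1 := zc_add_sum (sq d) (per d)
  unfold zc oc at h1
  simp only [Nat.count_eq_card_filter_range, hc] at h1
  simp only [Finset.sum_const, Finset.card_univ, Fintype.card_fin, smul_eq_mul, mul_one] at h1
  have h2 : per d = (3 * d + 2) / 2 := rfl
  omega

end Pool.Agent.Results.MP_c4c6a0_pr.RecurrentShiftModel
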